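import Mathlib
set_option autoImplicit false
/-!
# MP_d2ef9c_co : the indeque density of triangular grids is 4/9
-/
namespace Pool.Agent.Results.MP_d2ef9c_co.FourNinths
open Finset Filter Topology

/-- The vertex set of the triangular grid `T_n`. -/
noncomputable def V (n : ℕ) : Finset (ℤ × ℤ) :=
  (Finset.Icc (0 : ℤ) n ×ˢ Finset.Icc (0 : ℤ) n).filter (fun p => p.1 + p.2 ≤ n)

/-- Adjacency in the triangular lattice. -/
def Adj (p q : ℤ × ℤ) : Prop :=
  (p.2 = q.2 ∧ |p.1 - q.1| = 1) ∨ (p.1 = q.1 ∧ |p.2 - q.2| = 1) ∨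
    (p.1 - q.1 = q.2 - p.2 ∧ |p.1 - q.1| = 1)

lemma adj_symm {p q : ℤ × ℤ} (h : Adj p q) : Adj q p := by
  unfold Adj at *
  rcases h with h | h | h
  · left; exact ⟨h.1.symm, by rw [abs_sub_comm]; exact h.2⟩
  · right; left; exact ⟨h.1.symm, by rw [abs_sub_comm]; exact h.2⟩
  · right; right
    refine ⟨by omega, by rw [abs_sub_comm]; exact h.2⟩

lemma adj_irrefl (p : ℤ × ℤ) : ¬ Adj p p := by
  unfold Adj
  simp

/-- The triangular grid `T_n`. -/
def T (n : ℕ) : SimpleGraph (V n) where
  Adj p q := Adj p.1 q.1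
  symm := ⟨fun _ _ h => adj_symm h⟩
  loopless := ⟨fun p => adj_irrefl p.1⟩

/-- `S` is an indeque set of `G`: every connected component of the induced subgraph `G[S]` is a
complete graph. -/
def IsIndeque {W : Type} (G : SimpleGraph W) (S : Finset W) : Prop :=
  ∀ a b : (S : Set W), (G.induce (S : Set W)).Reachable a b → a ≠ b → G.Adj a b

/-- The indeque number. -/
noncomputable def indeque {W : Type} (G : SimpleGraph W) : ℕ :=
  sSup {k | ∃ S : Finset W, IsIndeque G S ∧ S.card = k}

/-! ### directions -/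

/-- The six directions in cyclic order. -/
def d (k : Fin 6) : ℤ × ℤ := ![(1, 0), (0, 1), (-1, 1), (-1, 0), (0, -1), (1, -1)] k

lemma d_inj : ∀ j k : Fin 6, d j = d k → j = k := by decide

lemma d_three : ∀ k : Fin 6, d k + d (k + 3) = 0 := by decide

lemma d_two : ∀ k : Fin 6, d k + d (k + 2) = d (k + 1) := by decide

lemma adj_iff {p q : ℤ × ℤ} : Adj p q ↔ ∃ k, q = p + d k := by
  obtain ⟨a, b⟩ := p
  obtain ⟨a', b'⟩ := q
  unfold Adj
  constructor
  · intro h
    simp only [abs_eq (zero_le_one : (0:ℤ) ≤ 1)] at h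
    rcases h with ⟨h1, h2 | h2⟩ | ⟨h1, h2 | h2⟩ | ⟨h1, h2 | h2⟩
    · exact ⟨3, by simp [d]; omega⟩
    · exact ⟨0, by simp [d]; omega⟩
    · exact ⟨4, by simp [d]; omega⟩
    · exact ⟨1, by simp [d]; omega⟩
    · exact ⟨2, by simp [d]; omega⟩
    · exact ⟨5, by simp [d]; omega⟩
  · rintro ⟨k, hk⟩
    simp only [abs_eq (zero_le_one : (0:ℤ) ≤ 1)]
    fin_cases k <;> simp [d] at hk <;> omega

lemma adj_dd (v : ℤ × ℤ) (j k : Fin 6) : Adj (v + d j) (v + d k) ↔ (k = j + 1 ∨ j = k + 1) := by
  rw [adj_iff]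
  have h1 : (∃ l, v + d k = v + d j + d l) ↔ ∃ l, d k = d j + d l := by
    constructor
    · rintro ⟨l, hl⟩
      exact ⟨l, by rw [add_assoc] at hl; exact add_left_cancel hl⟩
    · rintro ⟨l, hl⟩
      exact ⟨l, by rw [add_assoc, hl]⟩
  rw [h1]
  clear h1
  revert j k
  decide

/-! ### patterns of hexagons -/

/-- At most two ones, and if two then adjacent. -/
def okS (f : Fin 6 → Bool) : Prop := ∀ j k, f j = true → f k = true → j = k ∨ k = j + 1 ∨ j = k + 1

instance (f : Fin 6 → Bool) : Decidable (okS f) := by unfold okS; infer_instance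

/-- number of ones -/
def cnt (f : Fin 6 → Bool) : ℕ := ∑ j, if f j = true then 1 else 0

/-- what a vertex of `S` receives -/
lemma receive : ∀ f : Fin 6 → Bool, okS f →
    10 ≤ ∑ j : Fin 6, (if f j = false then
      2 + (if f (j + 1) = false ∧ f (j - 1) = false ∧ cnt f = 2 then 1 else 0) else 0) := by
  decide +kernel

/-- the alternating patterns -/
def Alt (f : Fin 6 → Bool) : Prop := ∃ m : Fin 6, f m = true ∧ f (m + 1) = false ∧ f (m + 2) = true ∧
  f (m + 3) = false ∧ f (m + 4) = true ∧ f (m + 5) = false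

instance (f : Fin 6 → Bool) : Decidable (Alt f) := by unfold Alt; infer_instance

/-- what a vertex outside `S` gives -/
lemma give : ∀ f : Fin 6 → Bool, (∀ k, ¬ (f k = true ∧ f (k + 1) = true ∧ f (k + 2) = true)) →
    (∑ j : Fin 6, (if f j = true then
      2 + (if f (j + 1) = false ∧ f (j - 1) = false then 1 else 0) else 0)) +
    (∑ k : Fin 6, if f k = false ∧ f (k + 1) = true ∧ f (k - 1) = true ∧
      (xor (f (k + 2)) (f (k - 2))) = true then 1 else 0) ≤ 8 ∨ Alt f := by
  decide +kernel

lemma alt_out : ∀ f : Fin 6 → Bool, Alt f →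
    (∑ k : Fin 6, if f k = false ∧ f (k + 1) = true ∧ f (k - 1) = true ∧
      (xor (f (k + 2)) (f (k - 2))) = true then 1 else 0) = 0 := by
  decide +kernel

lemma alt_cnt : ∀ f : Fin 6 → Bool, Alt f → cnt f = 3 := by
  decide +kernel

lemma pointer : ∀ (g : Fin 6 → Bool) (i : Fin 6), okS g → cnt g = 2 → g (i + 3) = false →
    g (i + 2) = false → g (i + 4) = false → g (i + 1) = !g (i + 5) := by
  decide +kernel

/-! ### the discharging -/

section upper

variable (s : ℤ × ℤ → Bool)

/-- the hexagon around `x` -/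
def hx (x : ℤ × ℤ) (k : Fin 6) : Bool := s (x + d k)

/-- what `x ∉ S` gives to its neighbour in direction `k` -/
def A (x : ℤ × ℤ) (k : Fin 6) : ℕ :=
  if s x = false ∧ s (x + d k) = true then
    2 + (if s (x + d (k + 1)) = false ∧ s (x + d (k - 1)) = false ∧ cnt (hx s (x + d k)) = 2
      then 1 else 0) else 0

/-- what `y ∉ S` gives to its neighbour in direction `k` -/
def H (y : ℤ × ℤ) (k : Fin 6) : ℕ :=
  if s y = false ∧ s (y + d k) = false ∧ s (y + d (k + 1)) = true ∧ s (y + d (k - 1)) = true ∧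
    (xor (s (y + d (k + 2))) (s (y + d (k - 2)))) = true then 1 else 0

variable {s}

lemma sub_d (x : ℤ × ℤ) (k : Fin 6) : x - d k = x + d (k + 3) := by
  have h := d_three k
  rw [sub_eq_add_neg, eq_neg_of_add_eq_zero_right h]

lemma add_dd (x : ℤ × ℤ) (k : Fin 6) : x + d k + d (k + 2) = x + d (k + 1) := by
  rw [add_assoc, d_two]

lemma local_ineq (hS : ∀ v, s v = true → okS (hx s v)) (x : ℤ × ℤ) (hx0 : s x = false) :
    ∑ k, A s x k + ∑ k, H s x k ≤ 8 + ∑ k, H s (x - d k) k := by
  set f := hx s x with hf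
  have hfk : ∀ k, s (x + d k) = f k := fun k => rfl
  -- no three consecutive
  have h3 : ∀ k, ¬ (f k = true ∧ f (k + 1) = true ∧ f (k + 2) = true) := by
    rintro k ⟨h1, h2, h3⟩
    have hv := hS (x + d (k + 1)) h2
    have e1 : hx s (x + d (k + 1)) (k + 5) = true := by
      have : x + d (k + 1) + d (k + 5) = x + d k := by
        have := d_two (k + 5)
        rw [show k + 5 + 2 = k + 1 by clear * -; revert k; decide, show k + 5 + 1 = k by clear * -; revert k; decide] at this
        rw [add_assoc, add_comm (d (k + 1)), this]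
      unfold hx
      rw [this]; exact h1
    have e2 : hx s (x + d (k + 1)) (k + 3) = true := by
      have : x + d (k + 1) + d (k + 3) = x + d (k + 2) := by
        have := add_dd x (k + 1)
        rwa [show k + 1 + 2 = k + 3 by clear * -; revert k; decide, show k + 1 + 1 = k + 2 by clear * -; revert k; decide]
          at this
      unfold hx
      rw [this]; exact h3
    have := hv _ _ e1 e2
    revert this
    clear * -
    revert k
    decide
  have hH : ∀ k, H s x k = if f k = false ∧ f (k + 1) = true ∧ f (k - 1) = true ∧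
      (xor (f (k + 2)) (f (k - 2))) = true then 1 else 0 := by
    intro k
    unfold H
    simp only [hx0, true_and, hfk]
  have hA : ∀ k, A s x k = if f k = true then
      2 + (if f (k + 1) = false ∧ f (k - 1) = false ∧ cnt (hx s (x + d k)) = 2 then 1 else 0) else 0 := by
    intro k
    unfold A
    simp only [hx0, true_and, hfk]
  have hA' : ∀ k, A s x k ≤ if f k = true then
      2 + (if f (k + 1) = false ∧ f (k - 1) = false then 1 else 0) else 0 := by
    intro k
    rw [hA]
    by_cases h1 : f k = true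
    · simp only [h1, if_true]
      by_cases h2 : f (k + 1) = false ∧ f (k - 1) = false
      · rw [if_pos h2]
        split_ifs <;> omega
      · rw [if_neg h2, if_neg (fun h => h2 ⟨h.1, h.2.1⟩)]
    · simp [h1]
  rcases give f h3 with h | h
  · have h4 := Finset.sum_le_sum (fun k (_ : k ∈ (Finset.univ : Finset (Fin 6))) => hA' k)
    simp only [hH]
    omega
  · have h5 : ∑ k, H s x k = 0 := by
      simp only [hH]
      exact alt_out f h
    rw [h5]
    by_cases ht : ∀ k, f k = true → cnt (hx s (x + d k)) = 2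
    · -- all the neighbours are in triangles
      have hA9 : ∑ k, A s x k ≤ 9 := by
        have h6 : ∀ k, A s x k ≤ 3 * (if f k = true then 1 else 0) := by
          intro k
          refine (hA' k).trans ?_
          split_ifs <;> omega
        have h7 := Finset.sum_le_sum (fun k (_ : k ∈ (Finset.univ : Finset (Fin 6))) => h6 k)
        rw [← Finset.mul_sum] at h7
        have h8 := alt_cnt f h
        unfold cnt at h8
        omega
      suffices hin : 1 ≤ ∑ k, H s (x - d k) k by omega
      obtain ⟨m, m0, m1, m2, m3, m4, m5⟩ := h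
      -- pointers
      have key : ∀ i : Fin 6, f i = true → f (i + 1) = false → f (i + 5) = false →
          s (x + d i + d (i + 1)) = !s (x + d i + d (i + 5)) := by
        intro i hi0 hi1 hi5
        refine pointer (hx s (x + d i)) i (hS _ hi0) (ht i hi0) ?_ ?_ ?_
        · unfold hx
          rw [add_assoc, d_three, add_zero]; exact hx0
        · unfold hx
          rw [add_dd]; exact hi1
        · unfold hx
          have : x + d i + d (i + 4) = x + d (i + 5) := by
            have := d_two (i + 4)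
            rw [show i + 4 + 2 = i by clear * -; revert i; decide, show i + 4 + 1 = i + 5 by clear * -; revert i; decide] at this
            rw [add_assoc, add_comm (d i), this]
          rw [this]; exact hi5
      have k0 := key m m0 m1 m5
      have k2 := key (m + 2) m2 (by rw [show m + 2 + 1 = m + 3 by clear * -; revert m; decide]; exact m3)
        (by rw [show m + 2 + 5 = m + 1 by clear * -; revert m; decide]; exact m1)
      have k4 := key (m + 4) m4 (by rw [show m + 4 + 1 = m + 5 by clear * -; revert m; decide]; exact m5)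
        (by rw [show m + 4 + 5 = m + 3 by clear * -; revert m; decide]; exact m3)
      rw [show m + 2 + 1 = m + 3 by clear * -; revert m; decide, show m + 2 + 5 = m + 1 by clear * -; revert m; decide] at k2
      rw [show m + 4 + 1 = m + 5 by clear * -; revert m; decide, show m + 4 + 5 = m + 3 by clear * -; revert m; decide] at k4
      -- the value of H at a non S neighbour
      have hval : ∀ k : Fin 6, f k = false → f (k + 1) = true → f (k + 5) = true →
          s (x + d k + d (k + 5)) ≠ s (x + d k + d (k + 1)) → H s (x - d (k + 3)) (k + 3) = 1 := by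
        intro k hk hk1 hk5 hne
        have e0 : x - d (k + 3) = x + d k := by
          rw [sub_d, show k + 3 + 3 = k by clear * -; revert k; decide]
        rw [e0]
        unfold H
        rw [if_pos]
        refine ⟨hk, ?_, ?_, ?_, ?_⟩
        · rw [add_assoc, d_three, add_zero]; exact hx0
        · have : x + d k + d (k + 3 + 1) = x + d (k + 5) := by
            have := d_two (k + 4)
            rw [show k + 4 + 2 = k by clear * -; revert k; decide, show k + 4 + 1 = k + 5 by clear * -; revert k; decide] at this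
            rw [show k + 3 + 1 = k + 4 by clear * -; revert k; decide, add_assoc, add_comm (d k), this]
          rw [this]; exact hk5
        · rw [show k + 3 - 1 = k + 2 by clear * -; revert k; decide, add_dd]; exact hk1
        · rw [show k + 3 + 2 = k + 5 by clear * -; revert k; decide, show k + 3 - 2 = k + 1 by clear * -; revert k; decide]
          revert hne
          cases s (x + d k + d (k + 5)) <;> cases s (x + d k + d (k + 1)) <;> simp
      have hle : ∀ k : Fin 6, H s (x - d (k + 3)) (k + 3) ≤ ∑ k, H s (x - d k) k :=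
        fun k => Finset.single_le_sum (f := fun k => H s (x - d k) k) (fun _ _ => Nat.zero_le _)
          (Finset.mem_univ (k + 3))
      have comm : ∀ i j : Fin 6, s (x + d i + d j) = s (x + d j + d i) := by
        intro i j
        rw [add_right_comm]
      by_contra hcon
      have hc : ∀ k : Fin 6, f k = false → f (k + 1) = true → f (k + 5) = true →
          s (x + d k + d (k + 5)) = s (x + d k + d (k + 1)) := by
        intro k h1 h2 h3
        by_contra hne
        have := hval k h1 h2 h3 hne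
        have := hle k
        omega
      have c1 := hc (m + 1) m1 (by rw [show m + 1 + 1 = m + 2 by clear * -; revert m; decide]; exact m2)
        (by rw [show m + 1 + 5 = m by clear * -; revert m; decide]; exact m0)
      have c3 := hc (m + 3) m3 (by rw [show m + 3 + 1 = m + 4 by clear * -; revert m; decide]; exact m4)
        (by rw [show m + 3 + 5 = m + 2 by clear * -; revert m; decide]; exact m2)
      have c5 := hc (m + 5) m5 (by rw [show m + 5 + 1 = m by clear * -; revert m; decide]; exact m0)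
        (by rw [show m + 5 + 5 = m + 4 by clear * -; revert m; decide]; exact m4)
      rw [show m + 1 + 1 = m + 2 by clear * -; revert m; decide, show m + 1 + 5 = m by clear * -; revert m; decide] at c1
      rw [show m + 3 + 1 = m + 4 by clear * -; revert m; decide, show m + 3 + 5 = m + 2 by clear * -; revert m; decide] at c3
      rw [show m + 5 + 1 = m by clear * -; revert m; decide, show m + 5 + 5 = m + 4 by clear * -; revert m; decide] at c5
      rw [comm (m + 1) m, comm (m + 1) (m + 2)] at c1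
      rw [comm (m + 3) (m + 2), comm (m + 3) (m + 4)] at c3
      rw [comm (m + 5) (m + 4), comm (m + 5) m] at c5
      revert k0 k2 k4 c1 c3 c5
      generalize s (x + d m + d (m + 1)) = a
      generalize s (x + d m + d (m + 5)) = q
      generalize s (x + d (m + 2) + d (m + 1)) = b
      generalize s (x + d (m + 2) + d (m + 3)) = c
      generalize s (x + d (m + 4) + d (m + 3)) = e
      generalize s (x + d (m + 4) + d (m + 5)) = p
      revert a q b c e p
      decide
    · push Not at ht
      obtain ⟨k, hk1, hk2⟩ := ht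
      have h6 : ∀ j, A s x j + (if j = k then 1 else 0) ≤ 3 * (if f j = true then 1 else 0) := by
        intro j
        by_cases hj : j = k
        · subst hj
          rw [hA]
          simp only [hk1, if_true]
          rw [if_neg (fun h => hk2 h.2.2)]
        · rw [if_neg hj]
          refine (hA' j).trans ?_
          split_ifs <;> omega
      have h7 := Finset.sum_le_sum (fun k (_ : k ∈ (Finset.univ : Finset (Fin 6))) => h6 k)
      rw [← Finset.mul_sum, Finset.sum_add_distrib] at h7
      have h8 := alt_cnt f h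
      unfold cnt at h8
      simp only [Finset.sum_ite_eq', Finset.mem_univ, if_true] at h7
      omega

/-- shifting a sum -/
lemma shift_sum (F : ℤ × ℤ → ℕ) (c : ℤ × ℤ) (X Y : Finset (ℤ × ℤ))
    (h : ∀ x ∈ X, F (x - c) ≠ 0 → x - c ∈ Y) : ∑ x ∈ X, F (x - c) ≤ ∑ y ∈ Y, F y := by
  classical
  have h1 : ∑ x ∈ X, F (x - c) = ∑ y ∈ X.image (fun x => x - c), F y := by
    rw [Finset.sum_image]
    intro a _ b _ hab
    exact sub_left_injective hab
  rw [h1]
  apply Finset.sum_le_sum_of_ne_zero
  intro y hy hne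
  obtain ⟨x, hx, rfl⟩ := Finset.mem_image.1 hy
  exact h x hx hne

lemma upper_core (hS : ∀ v, s v = true → okS (hx s v)) (X W : Finset (ℤ × ℤ))
    (hX : ∀ v, s v = true ↔ v ∈ X) (hXW : X ⊆ W)
    (hW : ∀ x k, x + d k ∈ X → x ∈ W) : 9 * X.card ≤ 4 * W.card := by
  classical
  -- what S receives
  have h1 : 10 * X.card ≤ ∑ v ∈ X, ∑ k, A s (v - d k) k := by
    rw [mul_comm, ← smul_eq_mul, ← Finset.sum_const]
    apply Finset.sum_le_sum
    intro v hv
    have hv' : s v = true := (hX v).2 hv
    refine (receive (hx s v) (hS v hv')).trans (le_of_eq ?_)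
    rw [← Equiv.sum_comp (Equiv.addRight (3 : Fin 6))]
    apply Finset.sum_congr rfl
    intro k _
    have e1 : v - d k + d (k + 1) = v + d (k + 2) := by
      rw [← d_two k]; abel
    have e2 : v - d k + d (k - 1) = v + d (k + 4) := by
      have := d_two (k + 3)
      have h3 := d_three k
      have h4 := d_three (k + 1)
      have h5 : d (k - 1) = d (k + 4) + d k := by
        clear * -
        revert k
        decide
      rw [h5]; abel
    have a1 : k + 3 + 1 = k + 4 := by clear * -; revert k; decide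
    have a2 : k + 3 - 1 = k + 2 := by clear * -; revert k; decide
    have hA : A s (v - d k) k = if s (v + d (k + 3)) = false then
        2 + (if s (v + d (k + 4)) = false ∧ s (v + d (k + 2)) = false ∧ cnt (hx s v) = 2
          then 1 else 0) else 0 := by
      unfold A
      rw [sub_add_cancel, e1, e2, sub_d]
      simp only [hv', and_true]
      by_cases c1 : s (v + d (k + 3)) = false
      · simp only [c1, if_true]
        congr 1
        apply if_congr _ rfl rfl
        tauto
      · simp [c1]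
    rw [hA]
    have hgen : ∀ l m : Fin 6, l = k + 4 → m = k + 2 →
        (if hx s v (k + 3) = false then
          2 + (if hx s v l = false ∧ hx s v m = false ∧ cnt (hx s v) = 2 then 1 else 0) else 0) =
        (if s (v + d (k + 3)) = false then
          2 + (if s (v + d (k + 4)) = false ∧ s (v + d (k + 2)) = false ∧ cnt (hx s v) = 2
            then 1 else 0) else 0) := by
      rintro l m rfl rfl
      rfl
    exact hgen (k + 3 + 1) (k + 3 - 1) a1 a2
  have h2 : ∑ v ∈ X, ∑ k, A s (v - d k) k ≤ ∑ x ∈ W, ∑ k, A s x k := by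
    rw [Finset.sum_comm, Finset.sum_comm (s := W)]
    apply Finset.sum_le_sum
    intro k _
    apply shift_sum (fun x => A s x k) (d k) X W
    intro x hx _
    apply hW (x - d k) k
    rwa [sub_add_cancel]
  have h3 : ∑ x ∈ W, ∑ k, H s (x - d k) k ≤ ∑ y ∈ W, ∑ k, H s y k := by
    rw [Finset.sum_comm, Finset.sum_comm (s := W)]
    apply Finset.sum_le_sum
    intro k _
    apply shift_sum (fun x => H s x k) (d k) W W
    intro x _ hne
    unfold H at hne
    split_ifs at hne with hc
    · exact hW _ _ ((hX _).1 hc.2.2.1)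
    · exact absurd rfl hne
  have h4 : ∑ x ∈ W, (∑ k, A s x k + ∑ k, H s x k) ≤
      ∑ x ∈ W, ((if x ∈ X then 0 else 8) + ∑ k, H s (x - d k) k) := by
    apply Finset.sum_le_sum
    intro x _
    by_cases hx0 : s x = true
    · rw [if_pos ((hX x).1 hx0)]
      have e1 : ∀ k, A s x k = 0 := by intro k; unfold A; simp [hx0]
      have e2 : ∀ k, H s x k = 0 := by intro k; unfold H; simp [hx0]
      simp [e1, e2]
    · rw [if_neg (fun h => hx0 ((hX x).2 h))]
      exact local_ineq hS x (by simpa using hx0)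
  rw [Finset.sum_add_distrib, Finset.sum_add_distrib] at h4
  have h5 : ∑ x ∈ W, (if x ∈ X then 0 else 8) + 8 * X.card = 8 * W.card := by
    have h6 : ∑ x ∈ W, (if x ∈ X then 8 else 0) = 8 * X.card := by
      rw [← Finset.sum_filter, Finset.sum_const, Finset.filter_mem_eq_inter,
        Finset.inter_eq_right.2 hXW, smul_eq_mul, mul_comm]
    rw [← h6, ← Finset.sum_add_distrib]
    have h7 : ∀ x ∈ W, (if x ∈ X then 0 else 8) + (if x ∈ X then 8 else 0) = 8 := by
      intro x _
      split_ifs <;> rfl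
    rw [Finset.sum_congr rfl h7, Finset.sum_const, smul_eq_mul, mul_comm]
  omega

end upper

/-! ### the grid -/

lemma mem_V {n : ℕ} {p : ℤ × ℤ} : p ∈ V n ↔ 0 ≤ p.1 ∧ 0 ≤ p.2 ∧ p.1 + p.2 ≤ n := by
  unfold V
  simp only [Finset.mem_filter, Finset.mem_product, Finset.mem_Icc]
  constructor
  · rintro ⟨⟨⟨h1, _⟩, h2, _⟩, h3⟩
    exact ⟨h1, h2, h3⟩
  · rintro ⟨h1, h2, h3⟩
    exact ⟨⟨⟨h1, by omega⟩, h2, by omega⟩, h3⟩

lemma two_card (n : ℕ) : 2 * (V n).card = (n + 1) * (n + 2) := by
  classical
  induction n with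
  | zero =>
    have : V 0 = {(0, 0)} := by
      ext ⟨a, b⟩
      rw [mem_V]
      simp only [Finset.mem_singleton, Prod.mk.injEq, Nat.cast_zero]
      omega
    rw [this]; simp
  | succ n ih =>
    have h1 : V (n + 1) = V n ∪ (Finset.range (n + 2)).image
        (fun i : ℕ => (((i : ℕ) : ℤ), ((n : ℤ) + 1 - i))) := by
      ext ⟨a, b⟩
      simp only [Finset.mem_union, mem_V, Finset.mem_image, Finset.mem_range, Prod.mk.injEq]
      push_cast
      constructor
      · rintro ⟨h1, h2, h3⟩
        by_cases h : a + b ≤ n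
        · left; exact ⟨h1, h2, h⟩
        · right; exact ⟨a.toNat, by omega, by omega, by omega⟩
      · rintro (⟨h1, h2, h3⟩ | ⟨i, h1, h2, h3⟩)
        · exact ⟨h1, h2, by omega⟩
        · exact ⟨by omega, by omega, by omega⟩
    have h2 : Disjoint (V n) ((Finset.range (n + 2)).image
        (fun i : ℕ => (((i : ℕ) : ℤ), ((n : ℤ) + 1 - i)))) := by
      rw [Finset.disjoint_left]
      rintro ⟨a, b⟩ h1 h2
      rw [mem_V] at h1
      obtain ⟨i, _, h3⟩ := Finset.mem_image.1 h2
      simp only [Prod.mk.injEq] at h3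
      simp only at h1
      omega
    rw [h1, Finset.card_union_of_disjoint h2, Finset.card_image_of_injective, Finset.card_range]
    · ring_nf
      ring_nf at ih
      omega
    · intro i j hij
      simp only [Prod.mk.injEq] at hij
      omega

lemma upper_bound (n : ℕ) (S : Finset (V n)) (hS : IsIndeque (T n) S) :
    9 * S.card ≤ 2 * ((n + 4) * (n + 5)) := by
  classical
  set X : Finset (ℤ × ℤ) := S.map (Function.Embedding.subtype _) with hXdef
  have hcard : X.card = S.card := Finset.card_map _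
  have hmem : ∀ v, v ∈ X ↔ ∃ h : v ∈ V n, (⟨v, h⟩ : V n) ∈ S := by
    intro v
    rw [hXdef, Finset.mem_map]
    constructor
    · rintro ⟨a, ha, rfl⟩
      exact ⟨a.2, ha⟩
    · rintro ⟨h, hs⟩
      exact ⟨⟨v, h⟩, hs, rfl⟩
  set s : ℤ × ℤ → Bool := fun v => decide (v ∈ X) with hs
  have hsX : ∀ v, s v = true ↔ v ∈ X := fun v => by simp [hs]
  set W : Finset (ℤ × ℤ) := (V (n + 3)).image (fun p => p - (1, 1)) with hWdef
  have hWmem : ∀ x : ℤ × ℤ, -1 ≤ x.1 → -1 ≤ x.2 → x.1 + x.2 ≤ n + 1 → x ∈ W := by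
    intro x h1 h2 h3
    rw [hWdef, Finset.mem_image]
    refine ⟨x + (1, 1), ?_, by simp⟩
    rw [mem_V]
    simp only [Prod.fst_add, Prod.snd_add]
    push_cast
    omega
  have key : 9 * X.card ≤ 4 * W.card := by
    apply upper_core (s := s) ?_ X W hsX ?_ ?_
    · intro v hv j k hj hk
      by_cases hjk : j = k
      · exact Or.inl hjk
      right
      obtain ⟨hv1, hv2⟩ := (hmem v).1 ((hsX v).1 hv)
      obtain ⟨hj1, hj2⟩ := (hmem _).1 ((hsX _).1 hj)
      obtain ⟨hk1, hk2⟩ := (hmem _).1 ((hsX _).1 hk)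
      have r1 : ((T n).induce (S : Set (V n))).Adj ⟨⟨v, hv1⟩, hv2⟩ ⟨⟨v + d j, hj1⟩, hj2⟩ := by
        simp only [SimpleGraph.comap_adj, Function.Embedding.subtype_apply]
        exact adj_iff.2 ⟨j, rfl⟩
      have r2 : ((T n).induce (S : Set (V n))).Adj ⟨⟨v, hv1⟩, hv2⟩ ⟨⟨v + d k, hk1⟩, hk2⟩ := by
        simp only [SimpleGraph.comap_adj, Function.Embedding.subtype_apply]
        exact adj_iff.2 ⟨k, rfl⟩
      have r3 := hS ⟨⟨v + d j, hj1⟩, hj2⟩ ⟨⟨v + d k, hk1⟩, hk2⟩
        (r1.reachable.symm.trans r2.reachable) (by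
          intro h
          simp only [Subtype.mk.injEq, add_right_inj] at h
          exact hjk (d_inj _ _ h))
      exact (adj_dd v j k).1 r3
    · intro v hv
      obtain ⟨hv1, _⟩ := (hmem v).1 hv
      rw [mem_V] at hv1
      exact hWmem v (by omega) (by omega) (by omega)
    · intro x k hk
      obtain ⟨hv1, _⟩ := (hmem _).1 hk
      rw [mem_V] at hv1
      simp only [Prod.fst_add, Prod.snd_add] at hv1
      have hd : ∀ k : Fin 6, -1 ≤ (d k).1 ∧ (d k).1 ≤ 1 ∧ -1 ≤ (d k).2 ∧ (d k).2 ≤ 1 ∧
          -1 ≤ (d k).1 + (d k).2 := by decide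
      obtain ⟨a1, a2, a3, a4, a5⟩ := hd k
      exact hWmem x (by omega) (by omega) (by omega)
  have hWc : W.card ≤ (V (n + 3)).card := Finset.card_image_le
  have h2 := two_card (n + 3)
  rw [hcard] at key
  have : (n + 3 + 1) * (n + 3 + 2) = (n + 4) * (n + 5) := by ring
  rw [this] at h2
  omega

/-! ### the pattern -/

/-- The periodic pattern in `ZMod 9 × ZMod 3`. -/
def Q : Finset (ZMod 9 × ZMod 3) :=
  {(0, 0), (2, 0), (4, 0), (6, 0), (7, 0), (8, 1), (2, 1), (3, 1), (7, 1), (8, 2), (3, 2), (4, 2)}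

/-- The class of a vertex. -/
def cl (p : ℤ × ℤ) : ZMod 9 × ZMod 3 := (((p.1 - p.2 : ℤ) : ZMod 9), ((p.2 : ℤ) : ZMod 3))

lemma cl_add (p q : ℤ × ℤ) : cl (p + q) = cl p + cl q := by
  unfold cl
  ext
  · simp only [Prod.fst_add, Prod.snd_add]; push_cast; ring
  · simp only [Prod.snd_add]; push_cast; ring

lemma Q_ok : ∀ c : ZMod 9 × ZMod 3, c ∈ Q → ∀ j k : Fin 6, c + cl (d j) ∈ Q → c + cl (d k) ∈ Q →
    j = k ∨ k = j + 1 ∨ j = k + 1 := by
  decide +kernel

lemma indeque_of_local {n : ℕ} (S : Finset (V n))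
    (h : ∀ v a b : V n, v ∈ S → a ∈ S → b ∈ S → Adj v.1 a.1 → Adj v.1 b.1 → a = b ∨ Adj a.1 b.1) :
    IsIndeque (T n) S := by
  intro a b hab
  obtain ⟨w⟩ := hab
  induction w with
  | nil => intro h; exact absurd rfl h
  | @cons u v w huv p ih =>
    intro hne
    have huv' : Adj u.1.1 v.1.1 := huv
    by_cases hvw : v = w
    · subst hvw
      exact huv'
    · have h1 : Adj v.1.1 w.1.1 := ih hvw
      rcases h v.1 u.1 w.1 v.2 u.2 w.2 (adj_symm huv') h1 with h2 | h2
      · exact absurd (Subtype.ext h2) hne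
      · exact h2

lemma lower_bound (n : ℕ) : ∃ S : Finset (V n), IsIndeque (T n) S ∧ 4 * (V n).card ≤ 9 * S.card := by
  classical
  set Sg : ZMod 9 × ZMod 3 → Finset (V n) := fun g =>
    (Finset.univ : Finset (V n)).filter (fun p => cl p.1 + g ∈ Q) with hSg
  have hind : ∀ g, IsIndeque (T n) (Sg g) := by
    intro g
    apply indeque_of_local
    intro v a b hv ha hb hva hvb
    obtain ⟨j, hj⟩ := adj_iff.1 hva
    obtain ⟨k, hk⟩ := adj_iff.1 hvb
    simp only [hSg, Finset.mem_filter, Finset.mem_univ, true_and] at hv ha hb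
    rw [hj, cl_add, add_right_comm] at ha
    rw [hk, cl_add, add_right_comm] at hb
    rcases Q_ok _ hv j k ha hb with h | h
    · left
      apply Subtype.ext
      rw [hj, hk, h]
    · right
      rw [hj, hk]
      exact (adj_dd _ _ _).2 h
  have hsum : ∑ g : ZMod 9 × ZMod 3, (Sg g).card = 12 * (V n).card := by
    have h1 : ∀ g, (Sg g).card = ∑ p : V n, if cl p.1 + g ∈ Q then 1 else 0 := by
      intro g
      rw [Finset.card_filter]
    simp only [h1]
    rw [Finset.sum_comm]
    have h2 : ∀ p : V n, ∑ g : ZMod 9 × ZMod 3, (if cl p.1 + g ∈ Q then 1 else 0) = 12 := by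
      intro p
      exact (Equiv.sum_comp (Equiv.addLeft (cl p.1)) (fun g => if g ∈ Q then 1 else 0)).trans
        (by decide +kernel)
    rw [Finset.sum_congr rfl (fun p _ => h2 p), Finset.sum_const, Finset.card_univ,
      Fintype.card_coe, smul_eq_mul, mul_comm]
  by_contra hcon
  push Not at hcon
  have h3 : ∀ g, 9 * (Sg g).card < 4 * (V n).card := fun g => hcon (Sg g) (hind g)
  have h4 : ∑ g : ZMod 9 × ZMod 3, 9 * (Sg g).card < ∑ g : ZMod 9 × ZMod 3, 4 * (V n).card :=
    Finset.sum_lt_sum_of_nonempty Finset.univ_nonempty (fun g _ => h3 g)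
  rw [← Finset.mul_sum, hsum, Finset.sum_const, Finset.card_univ, smul_eq_mul] at h4
  have h5 : Fintype.card (ZMod 9 × ZMod 3) = 27 := by
    rw [Fintype.card_prod, ZMod.card, ZMod.card]
  rw [h5] at h4
  omega

/-! ### the result -/

lemma bdd (n : ℕ) : BddAbove {k | ∃ S : Finset (V n), IsIndeque (T n) S ∧ S.card = k} := by
  refine ⟨Fintype.card (V n), ?_⟩
  rintro k ⟨S, _, rfl⟩
  exact Finset.card_le_univ S

lemma indeque_lower (n : ℕ) : 4 * (V n).card ≤ 9 * indeque (T n) := by
  obtain ⟨S, h1, h2⟩ := lower_bound n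
  have : S.card ≤ indeque (T n) := le_csSup (bdd n) ⟨S, h1, rfl⟩
  omega

lemma indeque_upper (n : ℕ) : 9 * indeque (T n) ≤ 2 * ((n + 4) * (n + 5)) := by
  obtain ⟨S0, h1, _⟩ := lower_bound n
  obtain ⟨S, hS, hc⟩ : indeque (T n) ∈ {k | ∃ S : Finset (V n), IsIndeque (T n) S ∧ S.card = k} :=
    Nat.sSup_mem ⟨_, S0, h1, rfl⟩ (bdd n)
  rw [← hc]
  exact upper_bound n S hS

lemma tendsto_ratio :
    Tendsto (fun n : ℕ => (indeque (T n) : ℝ) / ((V n).card : ℝ)) atTop (𝓝 (4 / 9)) := by
  have hV : ∀ n : ℕ, ((V n).card : ℝ) = ((n : ℝ) + 1) * (n + 2) / 2 := by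
    intro n
    have := two_card n
    have h2 : (2 : ℝ) * ((V n).card : ℝ) = ((n : ℝ) + 1) * (n + 2) := by exact_mod_cast this
    linarith
  have hpos : ∀ n : ℕ, 0 < ((V n).card : ℝ) := by
    intro n
    rw [hV]
    positivity
  have hup : Tendsto (fun n : ℕ => (4 / 9 : ℝ) * ((1 + 3 * ((n : ℝ) + 1)⁻¹) * (1 + 3 * ((n : ℝ) + 2)⁻¹)))
      atTop (𝓝 (4 / 9)) := by
    have h1 : Tendsto (fun n : ℕ => ((n : ℝ) + 1)⁻¹) atTop (𝓝 0) :=
      tendsto_inv_atTop_zero.comp (tendsto_atTop_add_const_right _ _ tendsto_natCast_atTop_atTop)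
    have h2 : Tendsto (fun n : ℕ => ((n : ℝ) + 2)⁻¹) atTop (𝓝 0) :=
      tendsto_inv_atTop_zero.comp (tendsto_atTop_add_const_right _ _ tendsto_natCast_atTop_atTop)
    have h3 := (((h1.const_mul 3).const_add 1).mul ((h2.const_mul 3).const_add 1)).const_mul (4 / 9 : ℝ)
    simpa using h3
  refine tendsto_of_tendsto_of_tendsto_of_le_of_le tendsto_const_nhds hup ?_ ?_
  · intro n
    have h1 : (4 : ℝ) * ((V n).card : ℝ) ≤ 9 * (indeque (T n) : ℝ) := by
      exact_mod_cast indeque_lower n
    simp only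
    rw [le_div_iff₀ (hpos n)]
    linarith
  · intro n
    have h1 : (9 : ℝ) * (indeque (T n) : ℝ) ≤ 2 * (((n : ℝ) + 4) * (n + 5)) := by
      exact_mod_cast indeque_upper n
    simp only
    rw [div_le_iff₀ (hpos n), hV]
    have h2 : (4 / 9 : ℝ) * ((1 + 3 * ((n : ℝ) + 1)⁻¹) * (1 + 3 * ((n : ℝ) + 2)⁻¹)) *
        (((n : ℝ) + 1) * (n + 2) / 2) = 2 / 9 * (((n : ℝ) + 4) * (n + 5)) := by
      field_simp
      ring
    rw [h2]
    linarith

/-- **The indeque density of triangular grids is `4/9`.** For every `n`,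
`4 |T_n| ≤ 9 αω(T_n) ≤ 2 (n+4)(n+5)`, where `|T_n| = (n+1)(n+2)/2`; so `αω(T_n)/|T_n|` converges
to `4/9`, and not to `2/5`. -/
theorem result :
    (∀ n : ℕ, 2 * (V n).card = (n + 1) * (n + 2) ∧ 4 * (V n).card ≤ 9 * indeque (T n) ∧
      9 * indeque (T n) ≤ 2 * ((n + 4) * (n + 5))) ∧
    Tendsto (fun n : ℕ => (indeque (T n) : ℝ) / ((V n).card : ℝ)) atTop (𝓝 (4 / 9)) ∧
    ¬ Tendsto (fun n : ℕ => (indeque (T n) : ℝ) / ((V n).card : ℝ)) atTop (𝓝 (2 / 5)) := by
  refine ⟨fun n => ⟨two_card n, indeque_lower n, indeque_upper n⟩, tendsto_ratio, ?_⟩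
  intro h
  have := tendsto_nhds_unique h tendsto_ratio
  norm_num at this

end Pool.Agent.Results.MP_d2ef9c_co.FourNinths
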